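import Pool.Agent.Work.MP_cfa43e_lc.Nr.Main

/-!
# Regular graphs with few common neighbours
-/

set_option autoImplicit false

namespace Pool.Agent.PReg.Nr

open Pool.Agent.PEmb

theorem tw_univ {V : Type} (G : SimpleGraph V) (w : ℕ)
    (h : TreeWidthLE (G.induce Set.univ) w) : TreeWidthLE G w := by
  obtain ⟨T, t, bag, hT, hc, he, hb⟩ := h
  refine ⟨T, t, fun x => Subtype.val '' bag x, hT, fun v => ?_, fun u v huv => ?_, fun x => ?_⟩
  · have e : {x | v ∈ Subtype.val '' bag x} = {x | (⟨v, trivial⟩ : (Set.univ : Set V)) ∈ bag x} := by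
      ext x
      simp
    rw [e]
    exact hc _
  · obtain ⟨x, h1, h2⟩ := he ⟨u, trivial⟩ ⟨v, trivial⟩ huv
    exact ⟨x, ⟨_, h1, rfl⟩, ⟨_, h2, rfl⟩⟩
  · exact (Set.encard_image_le _ _).trans (hb x)

/-- Classes with regular graphs in which two vertices have few common neighbours. -/
theorem mainRegK (t : ℕ) (C : Code → Prop) (hC : ComputablePred C)
    (h : ∀ w : ℕ, ∃ A : Code, C A ∧ (∃ r, ∀ v, ((graph A).neighborSet v).ncard = r) ∧
      (∀ x y, x ≠ y → ((graph A).neighborSet x ∩ (graph A).neighborSet y).ncard < t) ∧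
      ¬ TreeWidthLE (graph A) w) :
    FptReducible Clique cliqueParam (Emb C) embParam := by
  by_cases hb : RegFat (t + 3) C
  · exact mainReg (t + 3) C hC hb
  · -- for large tree width the degree is large
    unfold RegFat at hb
    push Not at hb
    obtain ⟨w0, hw0⟩ := hb
    refine mainThk (t + 2) C hC fun w => ?_
    obtain ⟨A, hA, ⟨r, hr⟩, hcod, htw⟩ := h (max w w0)
    have htw0 : ¬ TreeWidthLE (graph A) w0 := fun h => htw (tw_mono (le_max_right _ _) h)
    have htw1 : ¬ TreeWidthLE (graph A) w := fun h => htw (tw_mono (le_max_left _ _) h)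
    have hrt : t + 3 < r := by
      by_contra hle
      exact htw0 (hw0 A hA ⟨r, by omega, hr⟩)
    refine ⟨A, hA, Set.univ, r, r, t, ⟨?_, fun v _ => (hr v).le, fun x y hxy =>
      (hcod x y hxy).le, Or.inl (by omega)⟩, ?_, fun h => htw1 (tw_univ _ _ h)⟩
    · intro v _
      rw [Set.inter_univ]
      exact (hr v).ge
    · intro X Y hX hY hXY
      obtain ⟨x, hx, y, hy, hxy⟩ := Finset.one_lt_card.1 (show 1 < X.card by omega)
      have h1 := hcod x y hxy
      have h2 : Y.card ≤ ((graph A).neighborSet x ∩ (graph A).neighborSet y).ncard := by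
        rw [← Set.ncard_coe_finset]
        refine Set.ncard_le_ncard ?_ (Set.toFinite _)
        intro z hz
        exact ⟨(hXY x hx z hz).1, (hXY y hy z hz).1⟩
      omega

end Pool.Agent.PReg.Nr
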