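import Pool.Agent.Work.MP_cfa43e_lc.Nr.Pack

/-!
# Counting edges: at most one vertex over every vertex
-/

set_option autoImplicit false

namespace Pool.Agent.PReg.Nr

open Pool.Agent.PEmb

open Classical

variable {V W : Type} [Fintype V] {k δ κ D : ℕ} {G : SimpleGraph V} {zn : V → Zn}
  {Γ : SimpleGraph W} {X : Set V} {f : V → V × (Option W × Option W)}

/-- Ordered pairs of adjacent vertices of `Y`. -/
noncomputable def PP (G : SimpleGraph V) (Y : Finset V) : Finset (V × V) :=
  (Y ×ˢ Y).filter fun p => G.Adj p.1 p.2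

/-- The image of `X`. -/
noncomputable def Im (X : Set V) (f : V → V × (Option W × Option W)) : Finset V :=
  (XS X).image fun x => (f x).1

/-- The number of pairs over a pair. -/
noncomputable def mu (G : SimpleGraph V) (X : Set V) (f : V → V × (Option W × Option W))
    (q : V × V) : ℕ :=
  ((PP G (XS X)).filter fun p => ((f p.1).1, (f p.2).1) = q).card

theorem mem_PP {Y : Finset V} {p : V × V} : p ∈ PP G Y ↔ p.1 ∈ Y ∧ p.2 ∈ Y ∧ G.Adj p.1 p.2 := by
  simp [PP, and_assoc]

theorem mem_PX {p : V × V} : p ∈ PP G (XS X) ↔ p.1 ∈ X ∧ p.2 ∈ X ∧ G.Adj p.1 p.2 := by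
  rw [mem_PP, mem_XS, mem_XS]

theorem mem_Im {x : V} (hx : x ∈ X) : (f x).1 ∈ Im X f :=
  Finset.mem_image_of_mem (fun x => (f x).1) (mem_XS.2 hx)

theorem maps_PP (S : SitN k δ κ D G zn Γ X f) {p : V × V} (hp : p ∈ PP G (XS X)) :
    ((f p.1).1, (f p.2).1) ∈ PP G (Im X f) := by
  rw [mem_PX] at hp
  exact mem_PP.2 ⟨mem_Im hp.1, mem_Im hp.2.1, (S.adj _ _ hp.2.2).1⟩

theorem card_PP (S : SitN k δ κ D G zn Γ X f) :
    (PP G (XS X)).card = ∑ q ∈ PP G (Im X f), mu G X f q :=
  Finset.card_eq_sum_card_fiberwise fun _ hp => maps_PP S hp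

theorem mu_swap (u v : V) : mu G X f (u, v) = mu G X f (v, u) := by
  refine Finset.card_bij (fun p _ => (p.2, p.1)) ?_ ?_ ?_
  · intro p hp
    rw [Finset.mem_filter, mem_PX, Prod.mk.injEq] at hp ⊢
    exact ⟨⟨hp.1.2.1, hp.1.1, hp.1.2.2.symm⟩, hp.2.2, hp.2.1⟩
  · intro p _ q _ h
    rw [Prod.mk.injEq] at h
    exact Prod.ext h.2 h.1
  · intro p hp
    rw [Finset.mem_filter, mem_PX, Prod.mk.injEq] at hp
    refine ⟨(p.2, p.1), ?_, rfl⟩
    rw [Finset.mem_filter, mem_PX, Prod.mk.injEq]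
    exact ⟨⟨hp.1.2.1, hp.1.1, hp.1.2.2.symm⟩, hp.2.2, hp.2.1⟩

/-- The number of vertices which share their image. -/
theorem missed : ∑ u ∈ Im X f, ((Ov X f u).card - 1) + (Im X f).card = (XS X).card := by
  have h1 : (XS X).card = ∑ u ∈ Im X f, (Ov X f u).card :=
    Finset.card_eq_sum_card_fiberwise fun x hx => mem_Im (mem_XS.1 hx)
  rw [h1, Finset.card_eq_sum_ones, ← Finset.sum_add_distrib]
  refine Finset.sum_congr rfl fun u hu => ?_
  obtain ⟨x, hx, rfl⟩ := Finset.mem_image.1 hu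
  have : 0 < (Ov X f (f x).1).card := Finset.card_pos.2 ⟨x, mem_Ov.2 ⟨mem_XS.1 hx, rfl⟩⟩
  omega

/-- Edges which share their image. -/
theorem gain (S : SitN k δ κ D G zn Γ X f) :
    (PP G (XS X)).card ≤ (PP G (Im X f)).card + ∑ q ∈ PP G (Im X f), (mu G X f q - 1) := by
  rw [card_PP S, Finset.card_eq_sum_ones (PP G (Im X f)), ← Finset.sum_add_distrib]
  exact Finset.sum_le_sum fun q _ => by omega

/-- The charge of a pair. -/
noncomputable def ch (G : SimpleGraph V) (zn : V → Zn) (X : Set V)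
    (f : V → V × (Option W × Option W)) (q : V × V) : ℕ :=
  if zn q.1 = .pin then 0 else
    if zn q.2 = .pin then mu G X f q - 1 else (Ov X f q.1).card - 1

theorem mu_pins (S : SitN k δ κ D G zn Γ X f) {u v : V} (hu : zn u = .pin) (hv : zn v = .pin) :
    mu G X f (u, v) ≤ 1 := by
  rw [mu, Finset.card_le_one]
  intro p hp p' hp'
  rw [Finset.mem_filter, mem_PX, Prod.mk.injEq] at hp hp'
  exact Prod.ext (pinj S hp.1.1 hp'.1.1 (hp.2.1.trans hp'.2.1.symm) (by rw [hp.2.1]; exact hu))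
    (pinj S hp.1.2.1 hp'.1.2.1 (hp.2.2.trans hp'.2.2.symm) (by rw [hp.2.2]; exact hv))

theorem mu_fst (S : SitN k δ κ D G zn Γ X f) {u v : V} (hu : zn u ≠ .pin)
    (h : (∃ o i j, zn u = .port o i j) → ∀ i j, zn v ≠ .cell i j) :
    mu G X f (u, v) ≤ (Ov X f u).card := by
  refine Finset.card_le_card_of_injOn (fun p => p.1) ?_ ?_
  · intro p hp
    simp only [Finset.coe_filter, mem_PX, Prod.mk.injEq, Set.mem_setOf_eq] at hp
    exact mem_Ov.2 ⟨hp.1.1, hp.2.1⟩
  · intro p hp p' hp' he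
    simp only [Finset.coe_filter, mem_PX, Prod.mk.injEq, Set.mem_setOf_eq] at hp hp'
    have he' : p.1 = p'.1 := he
    refine Prod.ext he' (uniq S hp.1.2.2 (by rw [he']; exact hp'.1.2.2)
      (by rw [hp.2.1]; exact hu) ?_ (hp.2.2.trans hp'.2.2.symm))
    rw [hp.2.1, hp.2.2]
    exact h

theorem mu_le (S : SitN k δ κ D G zn Γ X f) (q : V × V) :
    mu G X f q - 1 ≤ ch G zn X f q + ch G zn X f q.swap := by
  obtain ⟨u, v⟩ := q
  by_cases hu : zn u = .pin <;> by_cases hv : zn v = .pin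
  · have := mu_pins S hu hv
    omega
  · simp only [ch, Prod.swap_prod_mk, if_pos hu, if_neg hv, mu_swap v u]
    omega
  · simp only [ch, if_pos hv, if_neg hu]
    omega
  · simp only [ch, Prod.swap_prod_mk, if_neg hu, if_neg hv]
    by_cases h : (∃ o i j, zn u = .port o i j) ∧ ∃ i j, zn v = .cell i j
    · obtain ⟨-, i, j, h2⟩ := h
      have := mu_fst S hv (v := u) (by
        rintro ⟨o, i', j', h3⟩
        rw [h2] at h3
        exact absurd h3 (by simp))
      rw [mu_swap v u] at this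
      omega
    · have := mu_fst S hu (v := v) (fun h1 i j h2 => h ⟨h1, i, j, h2⟩)
      omega

theorem ch_sum (S : SitN k δ κ D G zn Γ X f) {u : V} (hz : zn u ≠ .pin) :
    2 * ∑ v ∈ (Im X f).filter (fun v => G.Adj u v), ch G zn X f (u, v) ≤
      κ * ((Ov X f u).card * ((Ov X f u).card - 1)) + 6 * ((Ov X f u).card - 1) := by
  set n := (Ov X f u).card with hn
  have h1 := Finset.sum_filter_add_sum_filter_not ((Im X f).filter fun v => G.Adj u v)
    (fun v => zn v = .pin) (fun v => ch G zn X f (u, v))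
  have h2 : ∑ v ∈ ((Im X f).filter fun v => G.Adj u v).filter (fun v => ¬ zn v = .pin),
      ch G zn X f (u, v) ≤ 3 * (n - 1) := by
    have h3 : ∀ v ∈ ((Im X f).filter fun v => G.Adj u v).filter (fun v => ¬ zn v = .pin),
        ch G zn X f (u, v) ≤ n - 1 := by
      intro v hv
      rw [Finset.mem_filter] at hv
      simp only [ch, if_neg hz, if_neg hv.2]
      exact le_rfl
    refine (Finset.sum_le_card_nsmul _ _ _ h3).trans ?_
    rw [smul_eq_mul]
    refine Nat.mul_le_mul_right _ (le_trans (Finset.card_le_card ?_) (FN_le S hz))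
    intro v hv
    simp only [Finset.mem_filter, FN, Finset.mem_univ, true_and] at hv ⊢
    exact ⟨hv.1.2, hv.2⟩
  have h4 : 2 * ∑ v ∈ ((Im X f).filter fun v => G.Adj u v).filter (fun v => zn v = .pin),
      ch G zn X f (u, v) ≤ κ * (n * (n - 1)) := by
    have h5 := dc G (Ov X f u) (PW G zn X f u) κ (fun x hx y hy hxy =>
      PW_cod S u (mem_Ov.1 hx).1 (mem_Ov.1 hy).1 hxy)
    refine le_trans ?_ h5
    have h6 : ∑ v ∈ ((Im X f).filter fun v => G.Adj u v).filter (fun v => zn v = .pin),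
        ch G zn X f (u, v) = ∑ v ∈ (PW G zn X f u).image (fun w => (f w).1),
          ch G zn X f (u, v) := by
      symm
      refine Finset.sum_subset ?_ ?_
      · intro v hv
        simp only [PW, Finset.mem_image, Finset.mem_filter, mem_XS] at hv
        obtain ⟨w, hw, rfl⟩ := hv
        simp only [Finset.mem_filter]
        exact ⟨⟨mem_Im hw.1, hw.2.2⟩, hw.2.1⟩
      · intro v hv hv'
        rw [Finset.mem_filter, Finset.mem_filter] at hv
        simp only [ch, if_neg hz, if_pos hv.2]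
        have : mu G X f (u, v) = 0 := by
          rw [mu, Finset.card_eq_zero, Finset.filter_eq_empty_iff]
          intro p hp he
          rw [mem_PX] at hp
          rw [Prod.mk.injEq] at he
          apply hv'
          rw [Finset.mem_image]
          refine ⟨p.2, ?_, he.2⟩
          rw [PW, Finset.mem_filter, mem_XS, he.2]
          exact ⟨hp.2.1, hv.2, hv.1.2⟩
        omega
    rw [h6, Finset.sum_image, Finset.mul_sum]
    · refine Finset.sum_le_sum fun w hw => ?_
      rw [PW, Finset.mem_filter, mem_XS] at hw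
      simp only [ch, if_neg hz, if_pos hw.2.1]
      have h7 : mu G X f (u, (f w).1) ≤ ((Ov X f u).filter fun x => G.Adj x w).card := by
        refine Finset.card_le_card_of_injOn (fun p => p.1) ?_ ?_
        · intro p hp
          simp only [Finset.coe_filter, mem_PX, Prod.mk.injEq, Set.mem_setOf_eq] at hp
          have e : p.2 = w := pinj S hp.1.2.1 hw.1 hp.2.2 (by rw [hp.2.2]; exact hw.2.1)
          simp only [Finset.coe_filter, mem_Ov, Set.mem_setOf_eq]
          exact ⟨⟨hp.1.1, hp.2.1⟩, by rw [← e]; exact hp.1.2.2⟩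
        · intro p hp p' hp' he
          simp only [Finset.coe_filter, mem_PX, Prod.mk.injEq, Set.mem_setOf_eq] at hp hp'
          have e : p.2 = w := pinj S hp.1.2.1 hw.1 hp.2.2 (by rw [hp.2.2]; exact hw.2.1)
          have e' : p'.2 = w := pinj S hp'.1.2.1 hw.1 hp'.2.2 (by rw [hp'.2.2]; exact hw.2.1)
          exact Prod.ext he (e.trans e'.symm)
      generalize mu G X f (u, (f w).1) = a at h7
      generalize ((Ov X f u).filter fun x => G.Adj x w).card = m at h7 ⊢
      rcases m with _ | _ | m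
      · omega
      · omega
      · simp only [Nat.add_sub_cancel]
        have : 2 * (a - 1) ≤ 2 * (m + 1) := by omega
        nlinarith
    · intro w hw w' hw' h
      simp only [PW, Finset.coe_filter, mem_XS, Set.mem_setOf_eq] at hw hw'
      exact pinj S hw.1 hw'.1 h hw.2.1
  omega

/-- The total surplus. -/
theorem surplus (S : SitN k δ κ D G zn Γ X f) {N : ℕ}
    (hnu : ∀ u, zn u ≠ .pin → (Ov X f u).card ≤ N) :
    ∑ q ∈ PP G (Im X f), (mu G X f q - 1) ≤
      (κ * N + 6) * ∑ u ∈ Im X f, ((Ov X f u).card - 1) := by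
  have h3 : ∑ q ∈ PP G (Im X f), (mu G X f q - 1) ≤ 2 * ∑ q ∈ PP G (Im X f), ch G zn X f q := by
    have h4 : ∑ q ∈ PP G (Im X f), ch G zn X f q.swap = ∑ q ∈ PP G (Im X f), ch G zn X f q := by
      refine Finset.sum_equiv (Equiv.prodComm V V) ?_ ?_
      · intro q
        rw [mem_PP, mem_PP]
        exact ⟨fun h => ⟨h.2.1, h.1, h.2.2.symm⟩, fun h => ⟨h.2.1, h.1, h.2.2.symm⟩⟩
      · intro q _
        rfl
    calc ∑ q ∈ PP G (Im X f), (mu G X f q - 1)
        ≤ ∑ q ∈ PP G (Im X f), (ch G zn X f q + ch G zn X f q.swap) :=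
          Finset.sum_le_sum fun q _ => mu_le S q
      _ = 2 * ∑ q ∈ PP G (Im X f), ch G zn X f q := by
          rw [Finset.sum_add_distrib, h4, two_mul]
  refine h3.trans ?_
  have h6 : ∑ q ∈ PP G (Im X f), ch G zn X f q =
      ∑ u ∈ Im X f, ∑ v ∈ (Im X f).filter (fun v => G.Adj u v), ch G zn X f (u, v) := by
    rw [PP, Finset.sum_filter, Finset.sum_product]
    refine Finset.sum_congr rfl fun u _ => ?_
    rw [Finset.sum_filter]
  rw [h6, Finset.mul_sum, Finset.mul_sum]
  refine Finset.sum_le_sum fun u _ => ?_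
  by_cases hz : zn u = .pin
  · have : ∑ v ∈ (Im X f).filter (fun v => G.Adj u v), ch G zn X f (u, v) = 0 := by
      refine Finset.sum_eq_zero fun v _ => ?_
      simp only [ch, if_pos hz]
    rw [this]
    exact Nat.zero_le _
  · refine (ch_sum S hz).trans ?_
    have h7 := hnu u hz
    generalize (Ov X f u).card = n at h7
    calc κ * (n * (n - 1)) + 6 * (n - 1) ≤ κ * (N * (n - 1)) + 6 * (n - 1) := by
          gcongr
      _ = (κ * N + 6) * (n - 1) := by ring

/-- Injectivity and the image, in a set which maximizes the number of edges minus a multiple of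
the number of vertices. -/
theorem oneB (S : SitN k δ κ D G zn Γ X f) {N m : ℕ} (hN1 : 1 ≤ N)
    (hD : 2 * D + 6 * ((N + 1) * N) + κ * ((N + 1) * N) < 2 * ((N + 1) * δ) + 6)
    (hm : κ * N + 6 < m)
    (hs : ∀ Y : Finset V, (PP G Y).card + m * (XS X).card ≤ (PP G (XS X)).card + m * Y.card)
    (hu : ∀ Y : Finset V, Y.card = (XS X).card → (PP G (XS X)).card ≤ (PP G Y).card →
      Y = XS X) :
    (∀ x ∈ X, ∀ y ∈ X, (f x).1 = (f y).1 → x = y) ∧ ∀ x ∈ X, (f x).1 ∈ X := by
  have h1 := gain S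
  have h2 := surplus S fun u hu => nu S hN1 hD hu
  have h3 := missed (X := X) (f := f)
  have h4 := hs (Im X f)
  set E := ∑ u ∈ Im X f, ((Ov X f u).card - 1) with hE
  have h5 : E = 0 := by
    by_contra hne
    have h6 : m * E ≤ (κ * N + 6) * E := by
      have h7 : m * (XS X).card = m * E + m * (Im X f).card := by rw [← h3]; ring
      omega
    have := Nat.le_of_mul_le_mul_right h6 (Nat.pos_of_ne_zero hne)
    omega
  have h6 : (Im X f).card = (XS X).card := by omega
  have h7 : Im X f = XS X := hu _ h6 (by rw [h5, mul_zero] at h2; omega)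
  refine ⟨fun x hx y hy h => ?_, fun x hx => ?_⟩
  · have h8 : Set.InjOn (fun x => (f x).1) (XS X : Set V) := Finset.card_image_iff.1 h6
    exact h8 (mem_XS.2 hx) (mem_XS.2 hy) h
  · have := mem_Im (f := f) hx
    rw [h7] at this
    exact mem_XS.1 this

/-- Injectivity and the image, in the core. -/
theorem oneA (S : SitN k δ κ D G zn Γ X f) (hD : D + κ + 3 < 2 * δ)
    (mx : ∀ T : Set V, (∀ v ∈ T, δ ≤ (G.neighborSet v ∩ T).ncard) → T ⊆ X) :
    (∀ x ∈ X, ∀ y ∈ X, (f x).1 = (f y).1 → x = y) ∧ ∀ x ∈ X, (f x).1 ∈ X := by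
  have h1 : ∀ x ∈ X, ∀ y ∈ X, (f x).1 = (f y).1 → x = y := by
    intro x hx y hy h
    by_cases hz : zn (f x).1 = .pin
    · exact pinj S hx hy h hz
    · have h2 := nu S le_rfl (by omega) hz
      rw [Finset.card_le_one] at h2
      exact h2 x (mem_Ov.2 ⟨hx, rfl⟩) y (mem_Ov.2 ⟨hy, h.symm⟩)
  refine ⟨h1, fun x hx => ?_⟩
  have key : ∀ v ∈ X ∪ (fun a => (f a).1) '' X,
      δ ≤ (G.neighborSet v ∩ (X ∪ (fun a => (f a).1) '' X)).ncard := by
    rintro v (hv | ⟨a, ha, rfl⟩)
    · refine (S.lo v hv).trans (Set.ncard_le_ncard ?_ (Set.toFinite _))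
      exact Set.inter_subset_inter_right _ Set.subset_union_left
    · refine (S.lo a ha).trans (Set.ncard_le_ncard_of_injOn (fun b => (f b).1) ?_ ?_
        (Set.toFinite _))
      · rintro b ⟨hb, hbX⟩
        exact ⟨(S.adj a b hb).1, Or.inr ⟨b, hbX, rfl⟩⟩
      · rintro b ⟨_, hbX⟩ b' ⟨_, hbX'⟩ hbb
        exact h1 b hbX b' hbX' hbb
  exact mx _ key (Or.inr ⟨x, hx, rfl⟩)

end Pool.Agent.PReg.Nr
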