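import Pool.Agent.Work.MP_cfa43e_lc.Reg.Stmts

/-!
# Nearly regular graphs with few common neighbours: definitions and basic facts
-/

set_option autoImplicit false

namespace Pool.Agent.PReg.Nr

open Pool.Agent.PEmb

open Classical

/-- The situation: `f` embeds `G` into the host, every vertex of `X` has at least `δ` neighbours
in `X`, any two vertices of `X` have at most `κ` common neighbours in `X`, the vertices which are
not pinned are in `X` and have degree at most `D` and at most three neighbours which are not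
pinned. -/
structure SitN {V W : Type} (k δ κ D : ℕ) (G : SimpleGraph V) (zn : V → Zn) (Γ : SimpleGraph W)
    (X : Set V) (f : V → V × (Option W × Option W)) : Prop where
  lay : Lay0 k G zn
  pos : 0 < δ
  mem : ∀ v, zn v ≠ .pin → v ∈ X
  deg : ∀ v, zn v ≠ .pin → dg G v ≤ D
  few : ∀ v, zn v ≠ .pin → {u | G.Adj v u ∧ zn u ≠ .pin}.ncard ≤ 3
  lo : ∀ v ∈ X, δ ≤ (G.neighborSet v ∩ X).ncard
  cod : ∀ x ∈ X, ∀ y ∈ X, x ≠ y → {z | z ∈ X ∧ G.Adj x z ∧ G.Adj y z}.ncard ≤ κ
  inj : Function.Injective f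
  adj : ∀ x y, G.Adj x y → (host G (fun v => zb (zn v)) Γ).Adj (f x) (f y)

variable {V W : Type} {k δ κ D : ℕ} {G : SimpleGraph V} {zn : V → Zn} {Γ : SimpleGraph W}
  {X : Set V} {f : V → V × (Option W × Option W)}

/-- The value of a neighbour is determined, unless a port is left for a cell. -/
theorem val_eq (Γ : SimpleGraph W) {z z' : Zn} (hz : z ≠ .pin)
    (hz' : (∃ o i j, z = .port o i j) → ∀ i j, z' ≠ .cell i j)
    {x p p' : Option W × Option W} (h1 : okz Γ (zb z') p) (h2 : okz Γ (zb z') p')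
    (h3 : cmp (zb z) (zb z') x p) (h4 : cmp (zb z) (zb z') x p') : p = p' := by
  rcases z with _ | ⟨i, j⟩ | ⟨o, i, j⟩
  · exact absurd rfl hz
  · rcases z' with _ | ⟨i', j'⟩ | ⟨o', i', j'⟩
    · have h1' : p = (none, none) := h1
      have h2' : p' = (none, none) := h2
      rw [h1', h2']
    · by_cases e : i = j <;> by_cases e' : i' = j' <;>
        simp only [zb, e, e', if_true, if_false, cmp] at h3 h4 <;> rw [← h3, ← h4]
    · obtain ⟨u, hu⟩ : ∃ u, p = (some u, some u) := h1
      obtain ⟨u', hu'⟩ : ∃ u, p' = (some u, some u) := h2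
      subst hu hu'
      by_cases e : i = j <;> rcases o' with _ | _ <;>
        simp only [zb, e, if_true, if_false, cmp] at h3 h4 <;>
        (have h5 := h3.symm.trans h4; simp only [Option.some.injEq] at h5; rw [h5])
  · rcases z' with _ | ⟨i', j'⟩ | ⟨o', i', j'⟩
    · have h1' : p = (none, none) := h1
      have h2' : p' = (none, none) := h2
      rw [h1', h2']
    · exact absurd rfl (hz' ⟨o, i, j, rfl⟩ i' j')
    · rcases o with _ | _ <;> simp only [zb, cmp] at h3 h4 <;> rw [← h3, ← h4]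

theorem okx [Finite V] (S : SitN k δ κ D G zn Γ X f) {a : V} (ha : a ∈ X) :
    okz Γ (zb (zn (f a).1)) (f a).2 := by
  have h1 := S.lo a ha
  have h2 : 0 < (G.neighborSet a ∩ X).ncard := lt_of_lt_of_le S.pos h1
  rw [Set.ncard_pos (Set.toFinite _)] at h2
  obtain ⟨b, hb, _⟩ := h2
  exact (S.adj a b hb).2.1

theorem pinj [Finite V] (S : SitN k δ κ D G zn Γ X f) {a b : V} (ha : a ∈ X) (hb : b ∈ X)
    (h : (f a).1 = (f b).1) (hz : zn (f a).1 = .pin) : a = b := by
  have o1 := okx S ha
  have o2 := okx S hb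
  rw [hz] at o1
  rw [← h, hz] at o2
  have o1' : (f a).2 = (none, none) := o1
  have o2' : (f b).2 = (none, none) := o2
  exact S.inj (Prod.ext h (o1'.trans o2'.symm))

/-- Two neighbours over the same vertex are equal, unless a port is left for a cell. -/
theorem uniq (S : SitN k δ κ D G zn Γ X f) {x y y' : V} (h1 : G.Adj x y) (h2 : G.Adj x y')
    (hz : zn (f x).1 ≠ .pin)
    (hz' : (∃ o i j, zn (f x).1 = .port o i j) → ∀ i j, zn (f y).1 ≠ .cell i j)
    (h : (f y).1 = (f y').1) : y = y' := by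
  have e1 := S.adj x y h1
  have e2 := S.adj x y' h2
  have o1 : okz Γ (zb (zn (f y).1)) (f y).2 := e1.2.2.1
  have c1 : cmp (zb (zn (f x).1)) (zb (zn (f y).1)) (f x).2 (f y).2 := e1.2.2.2
  have o2 : okz Γ (zb (zn (f y').1)) (f y').2 := e2.2.2.1
  have c2 : cmp (zb (zn (f x).1)) (zb (zn (f y').1)) (f x).2 (f y').2 := e2.2.2.2
  rw [← h] at o2 c2
  exact S.inj (Prod.ext h (val_eq Γ hz hz' o1 o2 c1 c2))

end Pool.Agent.PReg.Nr
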