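import Pool.Agent.Work.MP_cfa43e_lc.Nr.Count

/-!
# A set which maximizes the number of edges minus a multiple of the number of vertices
-/

set_option autoImplicit false

namespace Pool.Agent.PReg.Nr

open Pool.Agent.PEmb

open Classical

variable {V : Type} [Fintype V]

/-- The score. -/
noncomputable def sc (G : SimpleGraph V) (m : ℕ) (Y : Finset V) : ℤ :=
  (PP G Y).card - m * Y.card

/-- The maximal set of maximal score. -/
theorem exists_max (G : SimpleGraph V) (m : ℕ) : ∃ X : Finset V,
    (∀ Y, sc G m Y ≤ sc G m X) ∧ ∀ Y, sc G m X ≤ sc G m Y → Y.card ≤ X.card := by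
  obtain ⟨X0, -, h0⟩ := Finset.exists_max_image (Finset.univ : Finset (Finset V)) (sc G m)
    ⟨∅, Finset.mem_univ _⟩
  obtain ⟨X, hX, h1⟩ := Finset.exists_max_image
    ((Finset.univ : Finset (Finset V)).filter fun Y => sc G m X0 ≤ sc G m Y) Finset.card
    ⟨X0, by simp⟩
  rw [Finset.mem_filter] at hX
  refine ⟨X, fun Y => (h0 Y (Finset.mem_univ _)).trans hX.2, fun Y hY => h1 Y ?_⟩
  rw [Finset.mem_filter]
  exact ⟨Finset.mem_univ _, hX.2.trans hY⟩

/-- Supermodularity. -/
theorem super (G : SimpleGraph V) (m : ℕ) (X Y : Finset V) :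
    sc G m X + sc G m Y ≤ sc G m (X ∪ Y) + sc G m (X ∩ Y) := by
  have h1 := Finset.card_union_add_card_inter X Y
  have h2 := Finset.card_union_add_card_inter (PP G X) (PP G Y)
  have h3 : (PP G X ∩ PP G Y).card = (PP G (X ∩ Y)).card := by
    congr 1
    ext p
    simp only [Finset.mem_inter, mem_PP]
    tauto
  have h4 : (PP G X ∪ PP G Y).card ≤ (PP G (X ∪ Y)).card := by
    refine Finset.card_le_card ?_
    intro p hp
    simp only [Finset.mem_union, mem_PP] at hp ⊢
    tauto
  unfold sc
  have h5 : ((X ∪ Y).card : ℤ) + ((X ∩ Y).card : ℤ) = X.card + Y.card := by exact_mod_cast h1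
  have h6 : (m : ℤ) * (X ∪ Y).card + m * (X ∩ Y).card = m * X.card + m * Y.card := by
    rw [← mul_add, h5, mul_add]
  omega

/-- The maximal set of maximal score contains all sets which do not lose. -/
theorem max_sub {G : SimpleGraph V} {m : ℕ} {X : Finset V} (h1 : ∀ Y, sc G m Y ≤ sc G m X)
    (h2 : ∀ Y, sc G m X ≤ sc G m Y → Y.card ≤ X.card) {Y : Finset V}
    (hY : sc G m X ≤ sc G m (X ∪ Y)) : Y ⊆ X := by
  have h3 := h2 _ hY
  have h4 : X = X ∪ Y := Finset.eq_of_subset_of_card_le Finset.subset_union_left h3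
  rw [h4]
  exact Finset.subset_union_right

/-- Every vertex has many neighbours. -/
theorem max_deg {G : SimpleGraph V} {m : ℕ} {X : Finset V} (h1 : ∀ Y, sc G m Y ≤ sc G m X)
    {v : V} (hv : v ∈ X) : m ≤ 2 * (X.filter fun u => G.Adj v u).card := by
  have h2 := h1 (X.erase v)
  have h3 : (X.erase v).card + 1 = X.card := Finset.card_erase_add_one hv
  have h4 : (PP G X).card ≤ (PP G (X.erase v)).card + 2 * (X.filter fun u => G.Adj v u).card := by
    have h5 : PP G X ⊆ PP G (X.erase v) ∪ ((X.filter fun u => G.Adj v u).image (fun u => (v, u)) ∪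
        (X.filter fun u => G.Adj v u).image (fun u => (u, v))) := by
      rintro ⟨a, b⟩ hp
      rw [mem_PP] at hp
      simp only [Finset.mem_union, mem_PP, Finset.mem_erase, Finset.mem_image,
        Finset.mem_filter, Prod.mk.injEq]
      by_cases ha : a = v
      · right; left
        exact ⟨b, ⟨hp.2.1, by rw [← ha]; exact hp.2.2⟩, ha.symm, rfl⟩
      · by_cases hb : b = v
        · right; right
          exact ⟨a, ⟨hp.1, by rw [← hb]; exact hp.2.2.symm⟩, rfl, hb.symm⟩
        · left
          exact ⟨⟨ha, hp.1⟩, ⟨hb, hp.2.1⟩, hp.2.2⟩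
    refine (Finset.card_le_card h5).trans ((Finset.card_union_le _ _).trans ?_)
    have h6 := Finset.card_union_le ((X.filter fun u => G.Adj v u).image (fun u => (v, u)))
      ((X.filter fun u => G.Adj v u).image (fun u => (u, v)))
    have h7 : ((X.filter fun u => G.Adj v u).image (fun u => (v, u))).card ≤ _ :=
      Finset.card_image_le
    have h8 : ((X.filter fun u => G.Adj v u).image (fun u => (u, v))).card ≤ _ :=
      Finset.card_image_le
    omega
  unfold sc at h2
  have h5 : (X.card : ℤ) = (X.erase v).card + 1 := by exact_mod_cast h3.symm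
  have h6 : (m : ℤ) * X.card = m * (X.erase v).card + m := by rw [h5]; ring
  omega

/-- A set of minimum degree at least `m` is contained in the maximal set. -/
theorem max_core {G : SimpleGraph V} {m : ℕ} {X : Finset V} (h1 : ∀ Y, sc G m Y ≤ sc G m X)
    (h2 : ∀ Y, sc G m X ≤ sc G m Y → Y.card ≤ X.card) {U : Finset V}
    (hU : ∀ v ∈ U, m ≤ (U.filter fun u => G.Adj v u).card) : U ⊆ X := by
  refine max_sub h1 h2 ?_
  have h3 : m * (U \ X).card + (PP G X).card ≤ (PP G (X ∪ U)).card := by
    have h4 : m * (U \ X).card ≤ ((PP G U).filter fun p => p.1 ∈ U \ X).card := by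
      refine Finset.mul_card_image_le_card_of_maps_to (f := Prod.fst) ?_ m ?_
      · intro p hp
        exact (Finset.mem_filter.1 hp).2
      · intro v hv
        refine (hU v (Finset.mem_sdiff.1 hv).1).trans
          (Finset.card_le_card_of_injOn (fun u => (v, u)) ?_ ?_)
        · intro u hu
          simp only [Finset.coe_filter, Set.mem_setOf_eq] at hu
          simp only [Finset.coe_filter, Finset.mem_filter, mem_PP, Set.mem_setOf_eq]
          exact ⟨⟨⟨(Finset.mem_sdiff.1 hv).1, hu.1, hu.2⟩, hv⟩, trivial⟩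
        · intro u _ u' _ h
          exact (Prod.mk.injEq _ _ _ _ ▸ h).2
    have h5 : Disjoint ((PP G U).filter fun p => p.1 ∈ U \ X) (PP G X) := by
      rw [Finset.disjoint_left]
      intro p hp hp'
      rw [Finset.mem_filter, Finset.mem_sdiff] at hp
      exact hp.2.2 (mem_PP.1 hp').1
    have h6 : ((PP G U).filter fun p => p.1 ∈ U \ X) ∪ PP G X ⊆ PP G (X ∪ U) := by
      intro p hp
      rw [Finset.mem_union, Finset.mem_filter, mem_PP, mem_PP] at hp
      rw [mem_PP, Finset.mem_union, Finset.mem_union]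
      tauto
    have h7 := Finset.card_le_card h6
    rw [Finset.card_union_of_disjoint h5] at h7
    omega
  have h4 : (X ∪ U).card = X.card + (U \ X).card := by
    rw [← Finset.union_sdiff_self_eq_union, Finset.card_union_of_disjoint Finset.disjoint_sdiff]
  unfold sc
  have h5 : (m : ℤ) * (X ∪ U).card = m * X.card + m * (U \ X).card := by
    rw [h4]; push_cast; ring
  have h6 : (m : ℤ) * (U \ X).card + (PP G X).card ≤ (PP G (X ∪ U)).card := by exact_mod_cast h3
  omega

end Pool.Agent.PReg.Nr
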