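import Pool.Agent.Work.MP_cfa43e_lc.Nr.Count

/-!
# The clique
-/

set_option autoImplicit false

namespace Pool.Agent.PReg.Nr

open Pool.Agent.PEmb

open Classical

variable {V W : Type} {k δ κ D : ℕ} {G : SimpleGraph V} {zn : V → Zn}
  {Γ : SimpleGraph W} {X : Set V} {f : V → V × (Option W × Option W)}

/-- All edges are used. -/
theorem edges [Fintype V] (S : SitN k δ κ D G zn Γ X f)
    (h1 : ∀ x ∈ X, ∀ y ∈ X, (f x).1 = (f y).1 → x = y) (h2 : ∀ x ∈ X, (f x).1 ∈ X) :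
    (∀ c ∈ X, ∃ a ∈ X, (f a).1 = c) ∧
      ∀ a ∈ X, ∀ c ∈ X, G.Adj (f a).1 c → ∃ b ∈ X, G.Adj a b ∧ (f b).1 = c := by
  refine ⟨fun c hc => ?_, fun a ha c hc hac => ?_⟩
  · obtain ⟨a, ha, e⟩ := Finset.surj_on_of_inj_on_of_card_le (s := XS X) (t := XS X)
      (fun a _ => (f a).1) (fun a ha => mem_XS.2 (h2 a (mem_XS.1 ha)))
      (fun a b ha hb hab => h1 a (mem_XS.1 ha) b (mem_XS.1 hb) hab) le_rfl c (mem_XS.2 hc)
    exact ⟨a, mem_XS.1 ha, e.symm⟩
  · obtain ⟨p, hp, e⟩ := Finset.surj_on_of_inj_on_of_card_le (s := PP G (XS X))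
      (t := PP G (XS X)) (fun p _ => ((f p.1).1, (f p.2).1)) (fun p hp => by
        rw [mem_PX] at hp ⊢
        exact ⟨h2 _ hp.1, h2 _ hp.2.1, (S.adj _ _ hp.2.2).1⟩)
      (fun p q hp hq hpq => by
        rw [mem_PX] at hp hq
        rw [Prod.mk.injEq] at hpq
        exact Prod.ext (h1 _ hp.1 _ hq.1 hpq.1) (h1 _ hp.2.1 _ hq.2.1 hpq.2)) le_rfl
      ((f a).1, c) (mem_PX.2 ⟨h2 a ha, hc, hac⟩)
    rw [mem_PX] at hp
    rw [Prod.mk.injEq] at e
    have e1 : a = p.1 := h1 _ ha _ hp.1 e.1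
    exact ⟨p.2, hp.2.1, by rw [e1]; exact hp.2.2, e.2.symm⟩

/-- The coordinate which is used in a port. -/
def sel {α : Type} : Bool → α × α → α
  | false, p => p.1
  | true, p => p.2

theorem cmp_port_port {o : Bool} {p q : Option W × Option W} (h : cmp (.port o) (.port o) p q) :
    p = q := by
  rcases o with _ | _ <;> exact h

theorem cmp_port_cell {o : Bool} {i j : ℕ} {p q : Option W × Option W}
    (h : cmp (.port o) (zb (.cell i j)) p q) : sel o p = sel o q := by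
  by_cases hij : i = j
  · have hz : zb (.cell i j) = .diag := by simp [zb, hij]
    rw [hz] at h
    rcases o with _ | _ <;> exact h
  · have hz : zb (.cell i j) = .off := by simp [zb, hij]
    rw [hz] at h
    rcases o with _ | _ <;> exact h

theorem cmp_cell {i j : ℕ} {p q : Option W × Option W}
    (h : cmp (zb (.cell i j)) (zb (.cell i j)) p q) : p = q := by
  by_cases hij : i = j
  · simp only [zb, if_pos hij, cmp] at h
    exact h
  · simp only [zb, if_neg hij, cmp] at h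
    exact h

theorem cellEq [Finite V] (S : SitN k δ κ D G zn Γ X f)
    (h3 : ∀ a ∈ X, ∀ c ∈ X, G.Adj (f a).1 c → ∃ b ∈ X, G.Adj a b ∧ (f b).1 = c)
    (h1 : ∀ x ∈ X, ∀ y ∈ X, (f x).1 = (f y).1 → x = y)
    (i j : ℕ) (hi : i < k) (hj : j < k) (a : V) (ha : a ∈ X) (b : V) (hb : b ∈ X)
    (hza : zn (f a).1 = .cell i j) (hzb : zn (f b).1 = .cell i j) : (f a).2 = (f b).2 := by
  have hw : ∀ w : {v | zn v = .cell i j},
      Relation.ReflTransGen (G.induce {v | zn v = .cell i j}).Adj ⟨(f a).1, hza⟩ w →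
      ∃ b ∈ X, f b = (w.1, (f a).2) := by
    intro w hw
    induction hw with
    | refl => exact ⟨a, ha, rfl⟩
    | @tail w w' _ hadj ih =>
      obtain ⟨b, hbX, hb⟩ := ih
      have hzb : zn (f b).1 = .cell i j := by rw [hb]; exact w.2
      obtain ⟨c, hcX, hbc, hc⟩ := h3 b hbX w'.1
        (S.mem _ (by rw [show zn w'.1 = .cell i j from w'.2]; simp)) (by rw [hb]; exact hadj)
      refine ⟨c, hcX, ?_⟩
      have h : cmp (zb (zn (f b).1)) (zb (zn (f c).1)) (f b).2 (f c).2 :=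
        (S.adj b c hbc).2.2.2
      have hw' : zn w'.1 = .cell i j := w'.2
      rw [hzb, hc, hw'] at h
      have h' := cmp_cell h
      rw [hb] at h'
      exact Prod.ext hc h'.symm
  have hr := (S.lay.cell i j hi hj).preconnected ⟨(f a).1, hza⟩ ⟨(f b).1, hzb⟩
  rw [SimpleGraph.reachable_iff_reflTransGen] at hr
  obtain ⟨c, hcX, hc⟩ := hw _ hr
  have e : c = b := h1 c hcX b hb (by rw [hc])
  rw [← e, hc]

theorem portEq [Finite V] (S : SitN k δ κ D G zn Γ X f)
    (h3 : ∀ a ∈ X, ∀ c ∈ X, G.Adj (f a).1 c → ∃ b ∈ X, G.Adj a b ∧ (f b).1 = c)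
    (h4 : ∀ c ∈ X, ∃ a ∈ X, (f a).1 = c)
    (val : ℕ → ℕ → Option W × Option W)
    (hval : ∀ i j, i < k → j < k → ∀ a ∈ X, zn (f a).1 = .cell i j → (f a).2 = val i j)
    (o : Bool) (i j : ℕ) (hE : Ex k o i j) :
    sel o (val i j) = sel o (val (nx o i j).1 (nx o i j).2) := by
  have hij : i < k ∧ j < k := by
    unfold Ex at hE
    rcases o with _ | _ <;> simp only [nx] at hE <;> omega
  obtain ⟨u0, v0, hadj0, hu0, hv0⟩ := S.lay.link o i j hE
  obtain ⟨u1, v1, hadj1, hu1, hv1⟩ := S.lay.link' o i j hE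
  have m1 : v0 ∈ X := S.mem v0 (by rw [hv0]; simp)
  have m2 : v1 ∈ X := S.mem v1 (by rw [hv1]; simp)
  obtain ⟨a, haX, ha⟩ := h4 u0 (S.mem u0 (by rw [hu0]; simp))
  have hfa : zn (f a).1 = .port o i j := by rw [ha]; exact hu0
  -- the first cell
  have e0 : sel o (f a).2 = sel o (val i j) := by
    obtain ⟨b, hbX, hab, hb⟩ := h3 a haX v0 m1 (by rw [ha]; exact hadj0)
    have h : cmp (zb (zn (f a).1)) (zb (zn (f b).1)) (f a).2 (f b).2 :=
      (S.adj a b hab).2.2.2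
    rw [hfa, hb, hv0] at h
    rw [cmp_port_cell h, hval i j hij.1 hij.2 b hbX (by rw [hb]; exact hv0)]
  -- the walk
  have hw : ∀ w : {v | zn v = .port o i j},
      Relation.ReflTransGen (G.induce {v | zn v = .port o i j}).Adj ⟨u0, hu0⟩ w →
      ∃ b ∈ X, f b = (w.1, (f a).2) := by
    intro w hw
    induction hw with
    | refl => exact ⟨a, haX, Prod.ext ha rfl⟩
    | @tail w w' _ hadj ih =>
      obtain ⟨b, hbX, hb⟩ := ih
      have hzb : zn (f b).1 = .port o i j := by rw [hb]; exact w.2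
      obtain ⟨c, hcX, hbc, hc⟩ := h3 b hbX w'.1
        (S.mem _ (by rw [show zn w'.1 = .port o i j from w'.2]; simp)) (by rw [hb]; exact hadj)
      refine ⟨c, hcX, ?_⟩
      have h : cmp (zb (zn (f b).1)) (zb (zn (f c).1)) (f b).2 (f c).2 :=
        (S.adj b c hbc).2.2.2
      have hw' : zn w'.1 = .port o i j := w'.2
      rw [hzb, hc, hw'] at h
      have h' := cmp_port_port h
      rw [hb] at h'
      exact Prod.ext hc h'.symm
  have hr := (S.lay.port o i j hE).preconnected ⟨u0, hu0⟩ ⟨u1, hu1⟩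
  rw [SimpleGraph.reachable_iff_reflTransGen] at hr
  obtain ⟨b, hbX, hb⟩ := hw _ hr
  have hfb : zn (f b).1 = .port o i j := by rw [hb]; exact hu1
  have e1 : sel o (f a).2 = sel o (val (nx o i j).1 (nx o i j).2) := by
    obtain ⟨c, hcX, hbc, hc⟩ := h3 b hbX v1 m2 (by rw [hb]; exact hadj1)
    have h : cmp (zb (zn (f b).1)) (zb (zn (f c).1)) (f b).2 (f c).2 :=
      (S.adj b c hbc).2.2.2
    rw [hfb, hc, hv1] at h
    have h5 := cmp_port_cell h
    rw [hb] at h5
    rw [← hval _ _ hE.1 hE.2 c hcX (by rw [hc]; exact hv1), ← h5]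
  rw [← e0, ← e1]

/-- The clique. -/
theorem kq [Fintype V] (S : SitN k δ κ D G zn Γ X f)
    (h1 : ∀ x ∈ X, ∀ y ∈ X, (f x).1 = (f y).1 → x = y) (h2 : ∀ x ∈ X, (f x).1 ∈ X) :
    Kq k Γ := by
  obtain ⟨h4, h3⟩ := edges S h1 h2
  -- the values
  have hv : ∀ i j : ℕ, ∃ p : Option W × Option W, (i < k → j < k →
      (∀ a ∈ X, zn (f a).1 = .cell i j → (f a).2 = p) ∧ okz Γ (zb (.cell i j)) p) := by
    intro i j
    by_cases hij : i < k ∧ j < k
    · obtain ⟨c⟩ := (S.lay.cell i j hij.1 hij.2).nonempty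
      have hc : zn c.1 = .cell i j := c.2
      obtain ⟨a, haX, ha⟩ := h4 c.1 (S.mem _ (by rw [hc]; simp))
      refine ⟨(f a).2, fun _ _ => ⟨fun b hbX hb => cellEq S h3 h1 i j hij.1 hij.2 b hbX a haX hb
        (by rw [ha]; exact hc), ?_⟩⟩
      have := okx S haX
      rw [ha, hc] at this
      exact this
    · exact ⟨(none, none), fun h1 h2 => absurd ⟨h1, h2⟩ hij⟩
  choose val hval using hv
  have hpe : ∀ o i j, Ex k o i j → sel o (val i j) = sel o (val (nx o i j).1 (nx o i j).2) :=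
    fun o i j hE => portEq S h3 h4 val (fun i j hi hj => (hval i j hi hj).1) o i j hE
  have hrow : ∀ i j, i < k → j + 1 < k → (val i j).1 = (val i (j + 1)).1 := by
    intro i j hi hj
    exact hpe false i j ⟨hi, hj⟩
  have hcol : ∀ i j, i + 1 < k → j < k → (val i j).2 = (val (i + 1) j).2 := by
    intro i j hi hj
    exact hpe true i j ⟨hi, hj⟩
  have hrow0 : ∀ i j, i < k → j < k → (val i j).1 = (val i 0).1 := by
    intro i j hi
    induction j with
    | zero => intro _; rfl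
    | succ j ih => intro hj; rw [← ih (by omega), hrow i j hi hj]
  have hcol0 : ∀ j i, i < k → j < k → (val i j).2 = (val 0 j).2 := by
    intro j i
    induction i with
    | zero => intro _ _; rfl
    | succ i ih => intro hi hj; rw [← ih (by omega) hj, hcol i j hi hj]
  have hdiag : ∀ i : Fin k, ∃ u : W, val i i = (some u, some u) := by
    intro i
    have := (hval i i i.2 i.2).2
    simpa [zb, okz] using this
  choose w hw using hdiag
  refine ⟨w, fun a b hab => ?_⟩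
  have hab' : (a : ℕ) ≠ b := fun h => hab (Fin.ext h)
  have h5 := (hval a b a.2 b.2).2
  simp only [zb, hab', if_false, okz] at h5
  obtain ⟨u, v, huv, hadj⟩ := h5
  have h6 : (val a b).1 = (val a a).1 := by
    rw [hrow0 a b a.2 b.2, hrow0 a a a.2 a.2]
  have h7 : (val a b).2 = (val b b).2 := by
    rw [hcol0 b a a.2 b.2, hcol0 b b b.2 b.2]
  rw [huv, hw] at h6 h7
  have h8 : u = w a := by simpa using h6
  have h9 : v = w b := by simpa using h7
  rw [← h8, ← h9]
  exact hadj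

/-- The number `N` for the second condition: `X` has minimum degree at least `d / 2`. -/
theorem cnd_N {d κ D δ : ℕ} (h : 8 * (κ + 6) * D ≤ d ^ 2) (hd : d ≤ 2 * δ) (hδ : δ ≤ D)
    (h0 : 0 < d) (hδ2 : 2 * δ ≤ d + 1) : ∃ N, 1 ≤ N ∧
    2 * D + 6 * ((N + 1) * N) + κ * ((N + 1) * N) < 2 * ((N + 1) * δ) + 6 ∧ κ * N + 6 < d := by
  have h00 : 0 < δ := by omega
  have hq : 2 * (κ + 6) * D ≤ δ ^ 2 := by
    have : d ^ 2 ≤ (2 * δ) ^ 2 := Nat.pow_le_pow_left hd 2
    nlinarith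
  have h1 : 2 * (κ + 6) * δ ≤ δ ^ 2 := (Nat.mul_le_mul_left _ hδ).trans hq
  have h2 : 2 * (κ + 6) ≤ δ := by
    rw [pow_two] at h1
    exact Nat.le_of_mul_le_mul_right h1 h00
  set N := δ / (κ + 6) with hN
  have h3 : N * (κ + 6) ≤ δ := Nat.div_mul_le_self _ _
  have h4 : δ < (N + 1) * (κ + 6) := by
    rw [hN]
    have h5 := Nat.div_add_mod δ (κ + 6)
    have h6 := Nat.mod_lt δ (show 0 < κ + 6 by omega)
    calc δ = (κ + 6) * (δ / (κ + 6)) + δ % (κ + 6) := h5.symm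
      _ < (κ + 6) * (δ / (κ + 6)) + (κ + 6) := by omega
      _ = (δ / (κ + 6) + 1) * (κ + 6) := by ring
  have h5 : 2 ≤ N := by
    rw [hN, Nat.le_div_iff_mul_le (by omega)]
    omega
  refine ⟨N, by omega, ?_, ?_⟩
  · -- `2 D ≤ δ² / (κ + 6) < (N + 1) δ`
    have h6 : δ * δ < (N + 1) * (κ + 6) * δ := Nat.mul_lt_mul_of_pos_right h4 h00
    have h7 : (κ + 6) * (2 * D) < (κ + 6) * ((N + 1) * δ) := by nlinarith
    have h8 : 2 * D < (N + 1) * δ := Nat.lt_of_mul_lt_mul_left h7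
    have h9 : (N + 1) * (N * (κ + 6)) ≤ (N + 1) * δ := Nat.mul_le_mul_left _ h3
    nlinarith
  · nlinarith

end Pool.Agent.PReg.Nr
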