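import Pool.Agent.Work.MP_cfa43e_lc.Nr.Fin
import Pool.Agent.Work.MP_cfa43e_lc.Nr.Dense
import Pool.Agent.Work.MP_cfa43e_lc.Her.AllH

/-!
# Classes with nearly regular graphs with few common neighbours
-/

set_option autoImplicit false

namespace Pool.Agent.PReg.Nr

open Pool.Agent.PEmb

/-- The situation: every vertex of `U` has at least `d` neighbours in `U` and at most `D`
neighbours, two vertices have at most `κ` common neighbours, and `D` is small. -/
structure Thk {V : Type} (G : SimpleGraph V) (U : Set V) (d D κ : ℕ) : Prop where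
  lo : ∀ v ∈ U, d ≤ (G.neighborSet v ∩ U).ncard
  hi : ∀ v ∈ U, (G.neighborSet v).ncard ≤ D
  cod : ∀ x y, x ≠ y → (G.neighborSet x ∩ G.neighborSet y).ncard ≤ κ
  cnd : D + κ + 3 < 2 * d ∨ 8 * (κ + 6) * D ≤ d ^ 2

/-- There are zones such that embeddings into the host are cliques with `k` vertices. -/
def Zon {V : Type} (k : ℕ) (G : SimpleGraph V) : Prop :=
  ∃ ζ : V → ZB, ∀ {W : Type} (Γ : SimpleGraph W), Kq k Γ ↔ Embeds G (host G ζ Γ)

theorem semC (k : ℕ) : ∃ K : ℕ, ∀ {V : Type} [Finite V] (G : SimpleGraph V) (U D0 : Set V)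
    (d D κ : ℕ), 0 < d → Thk G U d D κ → D0 ⊆ U →
    (∀ v, dg (rs G D0) v ≤ 3) → (∃ B, Grid (rs G D0) K B) → Zon k G := by
  classical
  obtain ⟨K, hK⟩ := fall k 3
  refine ⟨K, fun {V} _ G U D0 d D κ hd0 hT hD0 hd hB => ?_⟩
  obtain ⟨B, hB⟩ := hB
  obtain ⟨zn, z1, z2, -⟩ := hK G D0 hd B hB
  refine ⟨fun v => zb (zn v), fun {W} Γ => ⟨fun h => A6 k _ zn Γ z2 h, fun h => ?_⟩⟩
  rcases Nat.eq_zero_or_pos k with rfl | hk
  · exact ⟨fun i => i.elim0, fun i => i.elim0⟩
  obtain ⟨f, hf, hf2⟩ := h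
  cases nonempty_fintype V
  have hcod (X : Set V) : ∀ x ∈ X, ∀ y ∈ X, x ≠ y →
      {z | z ∈ X ∧ G.Adj x z ∧ G.Adj y z}.ncard ≤ κ := by
    intro x _ y _ hxy
    refine (Set.ncard_le_ncard ?_ (Set.toFinite _)).trans (hT.cod x y hxy)
    rintro z ⟨-, hz⟩
    exact hz
  have hfew : ∀ v, zn v ≠ .pin → {u | G.Adj v u ∧ zn u ≠ .pin}.ncard ≤ 3 := by
    intro v hv
    refine (Set.ncard_le_ncard ?_ (Set.toFinite _)).trans (hd v)
    rintro u ⟨hu1, hu2⟩
    exact ⟨hu1, z1 v hv, z1 u hu2⟩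
  rcases hT.cnd with hc | hc
  · -- the core
    have hs : SitN k d κ D G zn Γ (core d G) f :=
      ⟨z2, hd0, fun v hv => ⟨U, hD0 (z1 v hv), hT.lo⟩, fun v hv => hT.hi v (hD0 (z1 v hv)),
        hfew, core_lo d _, hcod _, hf, hf2⟩
    obtain ⟨h1, h2⟩ := oneA hs hc fun T hT v hv => ⟨T, hv, hT⟩
    exact kq hs h1 h2
  · -- the dense set
    obtain ⟨X, hX1, hX2⟩ := exists_max G d
    have hXS : XS (X : Set V) = X := by
      ext v
      simp [XS]
    have hlo : ∀ v ∈ (X : Set V), (d + 1) / 2 ≤ (G.neighborSet v ∩ X).ncard := by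
      intro v hv
      have h1 := max_deg hX1 (Finset.mem_coe.1 hv)
      have e : G.neighborSet v ∩ X = ((X.filter fun u => G.Adj v u : Finset V) : Set V) := by
        ext u
        simp only [Set.mem_inter_iff, SimpleGraph.mem_neighborSet, Finset.coe_filter,
          Finset.mem_coe, Set.mem_ofPred_eq]
        tauto
      rw [e, Set.ncard_coe_finset]
      omega
    have hU : ∀ v ∈ U, v ∈ X := by
      have h1 : (Set.toFinite U).toFinset ⊆ X := by
        refine max_core hX1 hX2 fun v hv => ?_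
        rw [Set.Finite.mem_toFinset] at hv
        refine (hT.lo v hv).trans ?_
        rw [← Set.ncard_coe_finset]
        refine Set.ncard_le_ncard ?_ (Set.toFinite _)
        intro u hu
        simp only [Finset.coe_filter, Set.Finite.mem_toFinset, Set.mem_ofPred_eq]
        exact ⟨hu.2, hu.1⟩
      intro v hv
      exact h1 ((Set.Finite.mem_toFinset _).2 hv)
    have hs : SitN k ((d + 1) / 2) κ D G zn Γ (X : Set V) f :=
      ⟨z2, by omega, fun v hv => hU v (hD0 (z1 v hv)), fun v hv => hT.hi v (hD0 (z1 v hv)),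
        hfew, hlo, hcod _, hf, hf2⟩
    have hδ : (d + 1) / 2 ≤ D := by
      obtain ⟨c⟩ := (z2.cell 0 0 hk hk).nonempty
      have hcz : zn c.1 ≠ .pin := by rw [show zn c.1 = .cell 0 0 from c.2]; simp
      exact (hlo c.1 (hU _ (hD0 (z1 c.1 hcz)))).trans
        ((Set.ncard_le_ncard Set.inter_subset_left (Set.toFinite _)).trans
          (hT.hi _ (hD0 (z1 c.1 hcz))))
    obtain ⟨N, hN1, hN2, hN3⟩ := cnd_N hc (show d ≤ 2 * ((d + 1) / 2) by omega) hδ hd0 (by omega)
    obtain ⟨h1, h2⟩ := oneB hs hN1 hN2 hN3 (fun Y => by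
      rw [hXS]
      have := hX1 Y
      unfold sc at this
      zify
      linarith) (fun Y hY hY2 => by
      rw [hXS] at hY hY2 ⊢
      have h3 : sc G d X ≤ sc G d Y := by
        unfold sc
        rw [hY]
        have : ((PP G X).card : ℤ) ≤ (PP G Y).card := by exact_mod_cast hY2
        linarith
      have h4 := super G d X Y
      have h5 := hX1 (X ∩ Y)
      have h6 : Y ⊆ X := max_sub hX1 hX2 (by linarith)
      exact Finset.eq_of_subset_of_card_le h6 hY.ge)
    exact kq hs h1 h2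

theorem dn_mono {V : Type} (G G' : SimpleGraph V) (S : Finset V) (v : V)
    (h : ∀ u ∈ S, G.Adj v u → G'.Adj v u) : PHer.dn G S v ≤ PHer.dn G' S v := by
  classical
  unfold PHer.dn
  refine Finset.card_le_card fun u hu => ?_
  simp only [Finset.mem_filter] at hu ⊢
  exact ⟨hu.1, h u hu.1 hu.2⟩

/-- The semantic theorem. -/
theorem semD (k t : ℕ) : ∃ w : ℕ, ∀ {V : Type} [Finite V] (G : SimpleGraph V) (U : Set V)
    (d D κ : ℕ), Thk G U d D κ → PHer.NoBic t (rs G U) → ¬ TreeWidthLE (G.induce U) w →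
    Zon k G := by
  classical
  obtain ⟨K, hK⟩ := semC k
  obtain ⟨s, hs⟩ := PHer.d21 t K
  obtain ⟨K1, hK1⟩ := sall (2 * s + s ^ 2) K
  obtain ⟨w, hw⟩ := gr K1
  obtain ⟨w2, hw2⟩ := gr 2
  refine ⟨max w w2, fun {V} _ G U d D κ hT hbic htw => ?_⟩
  have htw' (w' : ℕ) (h : w' ≤ max w w2) : ¬ TreeWidthLE (G.induce U) w' := by
    rintro ⟨T, t, bag, hT, hc, he, hb⟩
    exact htw ⟨T, t, bag, hT, hc, he, fun x => (hb x).trans (by exact_mod_cast by omega)⟩
  -- an edge
  obtain ⟨u0, v0, hu0, huv0⟩ : ∃ u0 v0, u0 ∈ U ∧ G.Adj u0 v0 := by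
    obtain ⟨B2, hB2⟩ := hw2 _ (htw' w2 (le_max_right _ _))
    obtain ⟨a, -, b, -, hab⟩ := hB2.hor 0 0 (by omega) (by omega)
    exact ⟨a.1, b.1, a.2, hab⟩
  have hd0 : 0 < d := by
    rcases hT.cnd with h | h
    · omega
    · have h1 : 0 < D := by
        refine lt_of_lt_of_le ?_ (hT.hi u0 hu0)
        rw [Set.ncard_pos (Set.toFinite _)]
        exact ⟨v0, huv0⟩
      have h2 : 0 < 8 * (κ + 6) * D := by positivity
      have h3 : 0 < d ^ 2 := lt_of_lt_of_le h2 h
      exact Nat.pos_of_ne_zero fun h4 => by rw [h4] at h3; simp at h3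
  by_cases hds : s ≤ d
  · obtain ⟨S, hS1, hS2⟩ := hs (rs G U) (Set.toFinite U).toFinset hbic
      ⟨u0, (Set.Finite.mem_toFinset _).2 hu0⟩ (fun v hv => by
        rw [Set.Finite.mem_toFinset] at hv
        refine (hds.trans (hT.lo v hv)).trans ?_
        rw [PHer.dn, ← Set.ncard_coe_finset]
        refine Set.ncard_le_ncard ?_ (Set.toFinite _)
        intro u hu
        simp only [Finset.coe_filter, Set.Finite.mem_toFinset, Set.mem_ofPred_eq]
        exact ⟨hu.2, hu.1, hv, hu.2⟩)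
    rw [(S5 G U S).2.1] at hS1 hS2
    exact hK G U (U ∩ S) d D κ hd0 hT Set.inter_subset_left hS1 hS2
  · have hb : D ≤ 2 * s + s ^ 2 := by
      rcases hT.cnd with h | h
      · omega
      · have e1 : D ≤ 8 * (κ + 6) * D := Nat.le_mul_of_pos_left D (by omega)
        have e2 : d ^ 2 ≤ s ^ 2 := Nat.pow_le_pow_left (by omega) 2
        omega
    obtain ⟨B, hB⟩ := hw _ (htw' w (le_max_left _ _))
    obtain ⟨B', hB'⟩ := F5 G U K1 B hB
    obtain ⟨S, hS, hsat⟩ := hK1 (rs G U) (fun v => by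
      by_cases hv : v ∈ U
      · refine le_trans (Set.ncard_le_ncard ?_ (Set.toFinite _)) ((hT.hi v hv).trans hb)
        intro u hu
        exact hu.1
      · have : (rs G U).neighborSet v = ∅ := by
          ext u
          simp only [SimpleGraph.mem_neighborSet, Set.mem_empty_iff_false, iff_false]
          exact fun h => hv h.2.1
        unfold dg
        rw [this, Set.ncard_empty]
        exact Nat.zero_le _) B' hB'
    rw [(S5 G U S).2.1] at hS hsat
    refine hK G U (U ∩ S) d D κ hd0 hT Set.inter_subset_left (fun v => ?_) hS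
    rcases hsat v with h | h | h
    · omega
    · exact h.1.le
    · exact h.1.le

/-- Classes with a thick set. -/
theorem mainThk (t : ℕ) (C : Code → Prop) (hC : ComputablePred C)
    (h : ∀ w : ℕ, ∃ A : Code, C A ∧ ∃ (U : Set (Fin A.length)) (d D κ : ℕ),
      Thk (graph A) U d D κ ∧ PHer.NoBic t (rs (graph A) U) ∧
      ¬ TreeWidthLE ((graph A).induce U) w) :
    FptReducible Clique cliqueParam (Emb C) embParam := by
  refine b C hC fun k => ?_
  obtain ⟨w, hw⟩ := semD k t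
  obtain ⟨A, hA, U, d, D, κ, h1, h2, h3⟩ := h w
  obtain ⟨ζ, hζ⟩ := hw (graph A) U d D κ h1 h2 h3
  exact ⟨A, hA, ζ, fun n Γ => hζ Γ⟩

end Pool.Agent.PReg.Nr
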