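import Pool.Agent.Work.MP_cfa43e_lc.Nr.Defs

/-!
# Packing: the number of vertices over a vertex which is not pinned
-/

set_option autoImplicit false

namespace Pool.Agent.PReg.Nr

open Pool.Agent.PEmb

open Classical

section
variable {V : Type}

/-- Double counting of pairs of vertices of `Q` with a common neighbour in `W`. -/
theorem dc (G : SimpleGraph V) (Q W : Finset V) (κ : ℕ)
    (h : ∀ x ∈ Q, ∀ y ∈ Q, x ≠ y → (W.filter fun z => G.Adj x z ∧ G.Adj y z).card ≤ κ) :
    ∑ z ∈ W, (Q.filter fun x => G.Adj x z).card * ((Q.filter fun x => G.Adj x z).card - 1) ≤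
      κ * (Q.card * (Q.card - 1)) := by
  have e (s : Finset V) : s.card * (s.card - 1) = s.offDiag.card := by
    rw [Finset.offDiag_card, Nat.mul_sub, mul_one]
  have h1 : ∑ z ∈ W, (Q.filter fun x => G.Adj x z).card *
      ((Q.filter fun x => G.Adj x z).card - 1) =
      ∑ z ∈ W, (Finset.bipartiteAbove (fun z (p : V × V) => G.Adj p.1 z ∧ G.Adj p.2 z)
        Q.offDiag z).card := by
    refine Finset.sum_congr rfl fun z _ => ?_
    rw [e]
    congr 1
    ext p
    simp only [Finset.mem_offDiag, Finset.mem_filter, Finset.bipartiteAbove]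
    tauto
  rw [h1, Finset.sum_card_bipartiteAbove_eq_sum_card_bipartiteBelow, e, mul_comm]
  refine (Finset.sum_le_card_nsmul _ _ κ fun p hp => ?_).trans (by rw [smul_eq_mul])
  rw [Finset.mem_offDiag] at hp
  exact h p.1 hp.1 p.2 hp.2.1 hp.2.2

/-- Packing. -/
theorem pack (G : SimpleGraph V) (Q W : Finset V) (κ c : ℕ)
    (h : ∀ x ∈ Q, ∀ y ∈ Q, x ≠ y → (W.filter fun z => G.Adj x z ∧ G.Adj y z).card ≤ κ)
    (hc : ∀ x ∈ Q, c ≤ (W.filter fun z => G.Adj x z).card) :
    2 * (Q.card * c) ≤ 2 * W.card + κ * (Q.card * (Q.card - 1)) := by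
  have h1 := dc G Q W κ h
  have h2 : Q.card * c ≤ ∑ z ∈ W, (Q.filter fun x => G.Adj x z).card := by
    have h3 := Finset.sum_card_bipartiteAbove_eq_sum_card_bipartiteBelow
      (s := Q) (t := W) (fun x z => G.Adj x z)
    have h4 : Q.card * c ≤ ∑ x ∈ Q, (Finset.bipartiteAbove (fun x z => G.Adj x z) W x).card := by
      have := Finset.card_nsmul_le_sum Q
        (fun x => (Finset.bipartiteAbove (fun x z => G.Adj x z) W x).card) c hc
      rwa [smul_eq_mul] at this
    rw [h3] at h4
    exact h4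
  have h5 : 2 * ∑ z ∈ W, (Q.filter fun x => G.Adj x z).card ≤
      2 * W.card + ∑ z ∈ W, (Q.filter fun x => G.Adj x z).card *
        ((Q.filter fun x => G.Adj x z).card - 1) := by
    rw [Finset.mul_sum, mul_comm 2 W.card, ← smul_eq_mul W.card 2, ← Finset.sum_const,
      ← Finset.sum_add_distrib]
    refine Finset.sum_le_sum fun z _ => ?_
    generalize (Q.filter fun x => G.Adj x z).card = m
    rcases m with _ | _ | m
    · simp
    · simp
    · simp only [Nat.add_sub_cancel]
      nlinarith
  omega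

end

variable {V W : Type} [Fintype V] {k δ κ D : ℕ} {G : SimpleGraph V} {zn : V → Zn}
  {Γ : SimpleGraph W} {X : Set V} {f : V → V × (Option W × Option W)}

/-- The elements of `X`. -/
noncomputable def XS (X : Set V) : Finset V := Finset.univ.filter fun x => x ∈ X

/-- The elements of `X` over `u`. -/
noncomputable def Ov (X : Set V) (f : V → V × (Option W × Option W)) (u : V) : Finset V :=
  (XS X).filter fun x => (f x).1 = u

/-- The neighbours which are not pinned. -/
noncomputable def FN (G : SimpleGraph V) (zn : V → Zn) (u : V) : Finset V :=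
  Finset.univ.filter fun v => G.Adj u v ∧ zn v ≠ .pin

/-- The pinned neighbours. -/
noncomputable def PN (G : SimpleGraph V) (zn : V → Zn) (u : V) : Finset V :=
  Finset.univ.filter fun v => G.Adj u v ∧ zn v = .pin

theorem mem_XS {x : V} : x ∈ XS X ↔ x ∈ X := by simp [XS]

theorem mem_Ov {x u : V} : x ∈ Ov X f u ↔ x ∈ X ∧ (f x).1 = u := by simp [Ov, mem_XS]

theorem FN_le (S : SitN k δ κ D G zn Γ X f) {u : V} (hu : zn u ≠ .pin) :
    (FN G zn u).card ≤ 3 := by
  have h := S.few u hu
  have e : {v | G.Adj u v ∧ zn v ≠ .pin} = ((FN G zn u : Finset V) : Set V) := by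
    ext v
    simp [FN]
  rwa [e, Set.ncard_coe_finset] at h

theorem dg_eq (G : SimpleGraph V) (zn : V → Zn) (u : V) :
    dg G u = (FN G zn u).card + (PN G zn u).card := by
  have e : G.neighborSet u = ((FN G zn u ∪ PN G zn u : Finset V) : Set V) := by
    ext v
    simp only [SimpleGraph.mem_neighborSet, Finset.coe_union, Set.mem_union, Finset.mem_coe, FN,
      PN, Finset.mem_filter, Finset.mem_univ, true_and]
    tauto
  unfold dg
  rw [e, Set.ncard_coe_finset, Finset.card_union_of_disjoint]
  rw [Finset.disjoint_left]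
  intro v h1 h2
  simp only [FN, PN, Finset.mem_filter, Finset.mem_univ, true_and] at h1 h2
  exact h1.2 h2.2

theorem lo' (S : SitN k δ κ D G zn Γ X f) {x : V} (hx : x ∈ X) :
    δ ≤ ((XS X).filter fun y => G.Adj x y).card := by
  have h := S.lo x hx
  have e : G.neighborSet x ∩ X = (((XS X).filter fun y => G.Adj x y : Finset V) : Set V) := by
    ext v
    simp only [Set.mem_inter_iff, SimpleGraph.mem_neighborSet, Finset.coe_filter, mem_XS,
      Set.mem_setOf_eq]
    tauto
  rwa [e, Set.ncard_coe_finset] at h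

theorem cod' (S : SitN k δ κ D G zn Γ X f) {x y : V} (hx : x ∈ X) (hy : y ∈ X) (hxy : x ≠ y) :
    ((XS X).filter fun z => G.Adj x z ∧ G.Adj y z).card ≤ κ := by
  have h := S.cod x hx y hy hxy
  have e : {z | z ∈ X ∧ G.Adj x z ∧ G.Adj y z} =
      (((XS X).filter fun z => G.Adj x z ∧ G.Adj y z : Finset V) : Set V) := by
    ext v
    simp [mem_XS]
  rwa [e, Set.ncard_coe_finset] at h

/-- The number of neighbours over vertices which are not pinned. -/
theorem fin_part (S : SitN k δ κ D G zn Γ X f) {x : V} (hz : zn (f x).1 ≠ .pin)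
    {N : ℕ} (hN1 : 1 ≤ N) (hN : (∃ o i j, zn (f x).1 = .port o i j) →
      ∀ v i j, zn v = .cell i j → (Ov X f v).card ≤ N) :
    (((XS X).filter fun y => G.Adj x y).filter fun y => zn (f y).1 ≠ .pin).card ≤
      N * (FN G zn (f x).1).card := by
  refine Finset.card_le_mul_card_image_of_maps_to (f := fun y => (f y).1) ?_ N ?_
  · intro y hy
    simp only [Finset.mem_filter, mem_XS] at hy
    simp only [FN, Finset.mem_filter, Finset.mem_univ, true_and]
    exact ⟨(S.adj x y hy.1.2).1, hy.2⟩
  · intro v _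
    by_cases hc : (∃ o i j, zn (f x).1 = .port o i j) ∧ ∃ i j, zn v = .cell i j
    · obtain ⟨h1, i, j, h2⟩ := hc
      refine le_trans (Finset.card_le_card ?_) (hN h1 v i j h2)
      intro y hy
      simp only [Finset.mem_filter, mem_XS] at hy
      exact mem_Ov.2 ⟨hy.1.1.1, hy.2⟩
    · refine le_trans ?_ hN1
      rw [Finset.card_le_one]
      intro y hy y' hy'
      simp only [Finset.mem_filter, mem_XS] at hy hy'
      refine uniq S hy.1.1.2 hy'.1.1.2 hz (fun hp i j hcell => hc ⟨hp, i, j, ?_⟩)
        (hy.2.trans hy'.2.symm)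
      rw [← hy.2]
      exact hcell

/-- The preimages of the pinned neighbours of `u`. -/
noncomputable def PW (G : SimpleGraph V) (zn : V → Zn) (X : Set V)
    (f : V → V × (Option W × Option W)) (u : V) : Finset V :=
  (XS X).filter fun w => zn (f w).1 = .pin ∧ G.Adj u (f w).1

theorem PW_le (S : SitN k δ κ D G zn Γ X f) (u : V) :
    (PW G zn X f u).card ≤ (PN G zn u).card := by
  refine Finset.card_le_card_of_injOn (fun w => (f w).1) ?_ ?_
  · intro w hw
    simp only [PW, Finset.coe_filter, mem_XS, Set.mem_setOf_eq] at hw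
    simp only [PN, Finset.coe_filter, Finset.mem_univ, true_and, Set.mem_setOf_eq]
    exact ⟨hw.2.2, hw.2.1⟩
  · intro w hw w' hw' h
    simp only [PW, Finset.coe_filter, mem_XS, Set.mem_setOf_eq] at hw hw'
    exact pinj S hw.1 hw'.1 h hw.2.1

theorem PW_cod (S : SitN k δ κ D G zn Γ X f) (u : V) {x y : V} (hx : x ∈ X) (hy : y ∈ X)
    (hxy : x ≠ y) : ((PW G zn X f u).filter fun z => G.Adj x z ∧ G.Adj y z).card ≤ κ := by
  refine le_trans (Finset.card_le_card ?_) (cod' S hx hy hxy)
  intro z hz
  simp only [PW, Finset.mem_filter] at hz ⊢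
  exact ⟨hz.1.1, hz.2⟩

/-- The packing inequality. -/
theorem nu_aux (S : SitN k δ κ D G zn Γ X f) {u : V} (hu : zn u ≠ .pin)
    {N : ℕ} (hN1 : 1 ≤ N) (hN : (∃ o i j, zn u = .port o i j) →
      ∀ v i j, zn v = .cell i j → (Ov X f v).card ≤ N) {Q : Finset V} (hQ : Q ⊆ Ov X f u) :
    2 * (Q.card * (δ - N * (FN G zn u).card)) ≤
      2 * (PN G zn u).card + κ * (Q.card * (Q.card - 1)) := by
  have h1 := pack G Q (PW G zn X f u) κ (δ - N * (FN G zn u).card)
    (fun x hx y hy hxy => PW_cod S u (mem_Ov.1 (hQ hx)).1 (mem_Ov.1 (hQ hy)).1 hxy) (by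
      intro x hx
      obtain ⟨hxX, hxu⟩ := mem_Ov.1 (hQ hx)
      have h2 := lo' S hxX
      have h3 := fin_part S (x := x) (by rw [hxu]; exact hu) hN1 (by rw [hxu]; exact hN)
      rw [hxu] at h3
      have h4 := Finset.card_filter_add_card_filter_not
        (s := (XS X).filter fun y => G.Adj x y) (fun y => zn (f y).1 ≠ .pin)
      have h5 : (((XS X).filter fun y => G.Adj x y).filter fun y => ¬ zn (f y).1 ≠ .pin).card ≤
          ((PW G zn X f u).filter fun z => G.Adj x z).card := by
        refine Finset.card_le_card ?_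
        intro y hy
        simp only [Finset.mem_filter, mem_XS, PW, not_not] at hy ⊢
        refine ⟨⟨hy.1.1, hy.2, ?_⟩, hy.1.2⟩
        rw [← hxu]
        exact (S.adj x y hy.1.2).1
      omega)
  have h2 := PW_le S u
  omega

/-- At most `N` vertices over every vertex which is not pinned. -/
theorem nu (S : SitN k δ κ D G zn Γ X f) {N : ℕ} (hN1 : 1 ≤ N)
    (hD : 2 * D + 6 * ((N + 1) * N) + κ * ((N + 1) * N) < 2 * ((N + 1) * δ) + 6)
    {u : V} (hu : zn u ≠ .pin) : (Ov X f u).card ≤ N := by
  have main : ∀ u, zn u ≠ .pin → ((∃ o i j, zn u = .port o i j) →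
      ∀ v i j, zn v = .cell i j → (Ov X f v).card ≤ N) → (Ov X f u).card ≤ N := by
    intro u hu hN
    by_contra hcon
    obtain ⟨Q, hQ, hQc⟩ := Finset.exists_subset_card_eq (show N + 1 ≤ (Ov X f u).card by omega)
    have h1 := nu_aux S hu hN1 hN hQ
    have h2 := FN_le S hu
    have h3 := dg_eq G zn u
    have h4 := S.deg u hu
    rw [hQc, Nat.add_sub_cancel] at h1
    set a := (FN G zn u).card
    set b := (PN G zn u).card
    have h5 : δ ≤ (δ - N * a) + N * a := by omega
    have h6 : (N + 1) * δ ≤ (N + 1) * (δ - N * a) + (N + 1) * (N * a) := by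
      rw [← Nat.mul_add]
      exact Nat.mul_le_mul_left _ h5
    have h7 : 2 * ((N + 1) * (N * a)) + 6 ≤ 6 * ((N + 1) * N) + 2 * a := by
      have h8 : 1 ≤ (N + 1) * N := Nat.one_le_iff_ne_zero.2 (by positivity)
      have h9 : (N + 1) * (N * a) = ((N + 1) * N) * a := by ring
      rw [h9]
      generalize (N + 1) * N = M at h8
      have : a = 0 ∨ a = 1 ∨ a = 2 ∨ a = 3 := by omega
      rcases this with h | h | h | h <;> rw [h] <;> omega
    omega
  have hcell : ∀ v i j, zn v = .cell i j → (Ov X f v).card ≤ N := by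
    intro v i j hv
    refine main v (by rw [hv]; simp) ?_
    rintro ⟨o, i', j', h⟩
    rw [hv] at h
    exact absurd h (by simp)
  exact main u hu fun _ => hcell

end Pool.Agent.PReg.Nr
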